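import Mathlib
import Pool.Agent.H590.NL.Stm

/-!
NO: normalisation and compactness (by helper375 for helper590).
-/

set_option autoImplicit false

noncomputable section

open MeasureTheory Filter Topology Set
open scoped BigOperators ENNReal MatrixOrder Matrix

namespace Pool.Agent.H375.NL

open H590NL

variable {n : ℕ} {κ : Type} [Fintype κ]

/-- the matrix with the rows `v k` -/
def W (v : κ → V n) : Matrix κ (Fin n) ℝ := Matrix.of v

omit [Fintype κ] in
theorem W_mulVec (v : κ → V n) (x : V n) (k : κ) : (W v).mulVec x k = ip (v k) x := rfl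

theorem nrm_iff (v : κ → V n) : Nrm v ↔ (W v)ᵀ * W v = 1 := by
  constructor
  · intro h
    ext i j
    rw [Matrix.mul_apply, Matrix.one_apply]
    exact h i j
  · intro h i j
    have h1 := congrFun (congrFun h i) j
    rw [Matrix.mul_apply, Matrix.one_apply] at h1
    exact h1

theorem exists_M (h : S_LA) (v : κ → V n) (hv : Spans v) :
    ∃ M : Matrix (Fin n) (Fin n) ℝ, M.det ≠ 0 ∧ Nrm (fun k => M.mulVec (v k)) := by
  have hker : ∀ x : V n, (∀ k, ip (v k) x = 0) → x = 0 := ((h n κ v).1).1 hv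
  set S : Matrix (Fin n) (Fin n) ℝ := (W v)ᴴ * W v with hS
  have hdet : S.det ≠ 0 := by
    intro h0
    obtain ⟨x, hx, hx0⟩ := Matrix.exists_mulVec_eq_zero_iff.2 h0
    rw [hS, Matrix.conjTranspose_mul_self_mulVec_eq_zero] at hx0
    exact hx (hker x fun k => by rw [← W_mulVec, hx0]; rfl)
  have hps : S.PosSemidef := Matrix.posSemidef_conjTranspose_mul_self _
  have hnn : 0 ≤ S := Matrix.nonneg_iff_posSemidef.2 hps
  set T : Matrix (Fin n) (Fin n) ℝ := CFC.sqrt S with hT
  have hTT : T * T = S := CFC.sqrt_mul_sqrt_self S hnn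
  have hTs : Tᵀ = T := by
    have h1 : T.PosSemidef := Matrix.nonneg_iff_posSemidef.1 (CFC.sqrt_nonneg S)
    have h2 := h1.isHermitian
    rwa [Matrix.IsHermitian, Matrix.conjTranspose_eq_transpose_of_trivial] at h2
  have hTd : T.det ≠ 0 := by
    intro h0
    apply hdet
    rw [← hTT, Matrix.det_mul, h0, zero_mul]
  have hTu : IsUnit T.det := isUnit_iff_ne_zero.2 hTd
  refine ⟨T⁻¹, ?_, ?_⟩
  · intro h0
    have h1 : (T * T⁻¹).det = 1 := by rw [Matrix.mul_nonsing_inv T hTu, Matrix.det_one]
    rw [Matrix.det_mul, h0, mul_zero] at h1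
    exact zero_ne_one h1
  · have hW : W (fun k => T⁻¹.mulVec (v k)) = W v * (T⁻¹)ᵀ := by
      ext k i
      rw [Matrix.mul_apply]
      show (T⁻¹.mulVec (v k)) i = _
      unfold Matrix.mulVec dotProduct
      refine Finset.sum_congr rfl fun j _ => ?_
      rw [Matrix.transpose_apply, mul_comm]
      rfl
    rw [nrm_iff, hW, Matrix.transpose_mul, Matrix.transpose_transpose,
      Matrix.transpose_nonsing_inv, hTs]
    have e1 : (W v)ᵀ * W v = T * T := by
      rw [hTT, hS, Matrix.conjTranspose_eq_transpose_of_trivial]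
    calc T⁻¹ * (W v)ᵀ * (W v * T⁻¹) = T⁻¹ * ((W v)ᵀ * W v) * T⁻¹ := by
          simp only [Matrix.mul_assoc]
      _ = T⁻¹ * (T * T) * T⁻¹ := by rw [e1]
      _ = (T⁻¹ * T) * (T * T⁻¹) := by simp only [Matrix.mul_assoc]
      _ = 1 := by rw [Matrix.nonsing_inv_mul T hTu, Matrix.mul_nonsing_inv T hTu, one_mul]

theorem compact_nrm : IsCompact {v : κ → V n | Nrm v} := by
  have hc : IsCompact (Set.pi Set.univ fun _ : κ => Set.pi Set.univ fun _ : Fin n =>
      Set.Icc (-1 : ℝ) 1) :=
    isCompact_univ_pi fun _ => isCompact_univ_pi fun _ => isCompact_Icc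
  refine hc.of_isClosed_subset ?_ ?_
  · have : {v : κ → V n | Nrm v} =
        ⋂ i : Fin n, ⋂ j : Fin n, {v : κ → V n | ∑ k, v k i * v k j = if i = j then 1 else 0} := by
      ext v
      simp only [Set.mem_iInter, Set.mem_ofPred_eq]
      rfl
    rw [this]
    refine isClosed_iInter fun i => isClosed_iInter fun j => ?_
    refine isClosed_eq ?_ continuous_const
    fun_prop
  · intro v hv k _ i _
    have h1 : ∑ k, v k i * v k i = 1 := by
      have := hv i i
      rwa [if_pos rfl] at this
    have h2 : v k i * v k i ≤ 1 := by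
      rw [← h1]
      exact Finset.single_le_sum (f := fun k => v k i * v k i)
        (fun k _ => mul_self_nonneg _) (Finset.mem_univ k)
    rw [Set.mem_Icc]
    constructor <;> nlinarith

theorem spans_of_nrm (h : S_LA) (v : κ → V n) (hv : Nrm v) : Spans v := by
  refine ((h n κ v).1).2 fun x hx => ?_
  have h1 := (nrm_iff v).1 hv
  have h2 : (W v).mulVec x = 0 := by
    funext k
    rw [W_mulVec, hx k]
    rfl
  have h3 : ((W v)ᵀ * W v).mulVec x = 0 := by
    rw [← Matrix.mulVec_mulVec, h2, Matrix.mulVec_zero]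
  rwa [h1, Matrix.one_mulVec] at h3

/-- NO -/
theorem NO (h : S_LA) : S_NO := by
  intro n κ _
  exact ⟨fun v hv => exists_M h v hv, compact_nrm, fun v hv => spans_of_nrm h v hv⟩

end Pool.Agent.H375.NL
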